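import Pool.Agent.Lib.MP_479d4c_gt.H85.OutDefs

/-!
# Base values at `d = 0`: the integrals of `k₀`
-/

set_option autoImplicit false

open scoped ENNReal BigOperators ComplexConjugate
noncomputable section
namespace CMC
namespace Base79
open A1

variable (D : Dat)

/-- A linear identity which holds for the monomials in `S` holds for series supported in `S`. -/
theorem eq_of_supp {Γ : Type} [AddCommGroup Γ] {w : Wt Γ} {E : Type*} [NormedAddCommGroup E]
    [NormedSpace ℝ E] {T U : A1 ℝ w →L[ℝ] E} {S : Set Γ}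
    (h : ∀ g ∈ S, T (mono ℝ w g) = U (mono ℝ w g)) {a : A1 ℝ w} (ha : SuppIn S a) : T a = U a := by
  have key : T.comp (proj ℝ w S) = U.comp (proj ℝ w S) := clm_ext fun g => by
    classical
    rw [ContinuousLinearMap.comp_apply, ContinuousLinearMap.comp_apply]
    by_cases hg : g ∈ S
    · rw [proj_eq_self_iff.2 (suppIn_mono hg), h g hg]
    · have : proj ℝ w S (mono ℝ w g) = 0 := by
        ext j
        rw [cf_proj, cf_mono]
        by_cases hj : j ∈ S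
        · rw [if_pos hj, if_neg (fun e : j = g => hg (e ▸ hj)), cf_zero]
        · rw [if_neg hj, cf_zero]
      rw [this, map_zero, map_zero]
  have := congrArg (fun L => L a) key
  simp only [ContinuousLinearMap.comp_apply, proj_eq_self_iff.2 ha] at this
  exact this

theorem TT_apply (k : Ak D.ρ) (g : Aa D.ρ) : TT D k g = Tv D.ρ (io D.ρ k * rab D.ρ g) := rfl

theorem TT_add (k : Ak D.ρ) (g h : Aa D.ρ) : TT D k (g + h) = TT D k g + TT D k h := by
  rw [TT_apply, map_add, mul_add, map_add]; rfl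

theorem TT_smul (k : Ak D.ρ) (c : ℝ) (g : Aa D.ρ) : TT D k (c • g) = c • TT D k g := by
  rw [TT_apply, map_smul, mul_smul_comm, map_smul]; rfl

/-- `∫ (G'(v)/v²) v² dv = G(v)`. -/
theorem TT_dk2 {G : As D.ρ} (hG : SuppIn {n : ℤ | 3 ≤ n} G) :
    TT D (dk D.ρ G) (ma D.ρ 0 2) = iv D.ρ G := by
  refine eq_of_supp (T := (Tv D.ρ).comp (((ContinuousLinearMap.mul ℝ (Ab D.ρ)).flip
      (rab D.ρ (ma D.ρ 0 2))).comp ((io D.ρ).comp (dk D.ρ)))) (U := iv D.ρ) (fun n hn => ?_) hG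
  have h3 : (3 : ℤ) ≤ n := hn
  simp only [ContinuousLinearMap.comp_apply, dk_mono, map_smul, iv_mono,
    ContinuousLinearMap.flip_apply, ContinuousLinearMap.mul_apply']
  rw [io_mono D.ρ (by omega : 0 ≤ n - 3), rab_mono, mono_mul_mono,
    Prod.mk_add_mk, Tv_mono D.ρ (by omega) (by omega), smul_smul]
  have hn0 : (n : ℝ) ≠ 0 := by
    have : (n : ℤ) ≠ 0 := by omega
    exact_mod_cast this
  have e : (n : ℝ) * (1 / (((n - 3 + 2 : ℤ) : ℝ) + 1)) = 1 := by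
    push_cast
    have : (n : ℝ) - 3 + 2 + 1 = n := by ring
    rw [this]; field_simp
  rw [e, one_smul]
  congr 1
  ext
  · simp
  · simp; ring

/-- A series in `w` may be taken out of the integral. -/
theorem Tv_iw {x : Ab D.ρ} (hx : SuppIn Quad x) {G : As D.ρ} (hG : SuppIn {n : ℤ | 0 ≤ n} G) :
    Tv D.ρ (x * rab D.ρ (iw D.ρ G)) = Tv D.ρ x * iw D.ρ G := by
  refine eq_of_supp (T := (Tv D.ρ).comp ((ContinuousLinearMap.mul ℝ (Ab D.ρ)).flip
      (rab D.ρ (iw D.ρ G)))) (U := ((ContinuousLinearMap.mul ℝ (Aa D.ρ)).flip (iw D.ρ G)).comp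
      (Tv D.ρ)) (fun g hg => ?_) hx
  obtain ⟨m, n⟩ := g
  have hm : 0 ≤ m := hg.1
  have hn : 0 ≤ n := hg.2
  refine eq_of_supp (T := (Tv D.ρ).comp ((ContinuousLinearMap.mul ℝ (Ab D.ρ)
      (mono ℝ (wb D.ρ) (m, n))).comp ((rab D.ρ).comp (iw D.ρ))))
      (U := (ContinuousLinearMap.mul ℝ (Aa D.ρ) (Tv D.ρ (mono ℝ (wb D.ρ) (m, n)))).comp
      (iw D.ρ)) (fun j hj => ?_) hG
  have hj0 : 0 ≤ j := hj
  simp only [ContinuousLinearMap.comp_apply, ContinuousLinearMap.mul_apply', iw_mono]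
  rw [rab_mono, mono_mul_mono, Prod.mk_add_mk, Tv_mono D.ρ hm hn, smul_mul_assoc, mono_mul_mono,
    Prod.mk_add_mk, Tv_mono D.ρ (by omega) (by omega)]
  congr 2
  · rw [add_zero]
  · ext <;> simp

theorem suppIn_rab {a : Aa D.ρ} {S : Set (ℤ × ℤ)} (h : SuppIn S a) : SuppIn S (rab D.ρ a) :=
  fun g hg => by rw [cf_rab]; exact h g hg

theorem suppIn_op {Γ Γ' : Type} [AddCommGroup Γ] [AddCommGroup Γ'] {w : Wt Γ} {w' : Wt Γ'}
    {χ : Γ → A1 ℝ w'} {C : ℝ} {hχ : ∀ g, ‖χ g‖ ≤ C * w g} {S : Set Γ'}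
    (h : ∀ g, SuppIn S (χ g)) (a : A1 ℝ w) : SuppIn S (op χ C hχ a) := by
  intro j hj
  have h1 := (hasSum_op χ C hχ a).mapL (cfL ℝ w' j)
  have h2 : (fun g => cfL ℝ w' j (cf a g • χ g)) = fun _ => 0 := by
    funext g
    rw [map_smul, cfL_apply, h g j hj, smul_zero]
  rw [h2] at h1
  exact h1.unique hasSum_zero

theorem suppIn_io (k : Ak D.ρ) : SuppIn Quad (io D.ρ k) := by
  refine suppIn_op (fun n => ?_) k
  split_ifs with h
  · exact suppIn_mono ⟨le_refl _, h⟩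
  · exact SuppIn.zero

theorem TT_iw (k : Ak D.ρ) {g : Aa D.ρ} (hg : SuppIn Quad g) {G : As D.ρ}
    (hG : SuppIn {n : ℤ | 0 ≤ n} G) : TT D k (g * iw D.ρ G) = TT D k g * iw D.ρ G := by
  rw [TT_apply, rab_mul, ← mul_assoc, Tv_iw D _ hG]
  · rfl
  · exact SuppIn.mul (fun g hg h hh => quad_add hg hh) (suppIn_io D k) (suppIn_rab D hg)

theorem cf_dk (G : As D.ρ) (n : ℤ) : cf (dk D.ρ G) n = (n + 3) * cf G (n + 3) := by
  classical
  have h : (cfL ℝ (wk D.ρ) n).comp (dk D.ρ) = ((n : ℝ) + 3) • cfL ℝ (ws D.ρ) (n + 3) :=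
    clm_ext fun j => by
      rw [ContinuousLinearMap.comp_apply, _root_.smul_apply, dk_mono, map_smul, cfL_apply,
        cfL_apply, cf_mono, cf_mono, smul_eq_mul, smul_eq_mul]
      by_cases hj : j = n + 3
      · subst hj
        rw [if_pos (by ring), if_pos rfl]
        push_cast; ring
      · rw [if_neg (by omega), if_neg (by omega)]; ring
  have := congrArg (fun L => L G) h
  simpa using this

theorem cf_io (k : Ak D.ρ) (m n : ℤ) :
    cf (io D.ρ k) (m, n) = if m = 0 ∧ 0 ≤ n then cf k n else 0 := by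
  classical
  have h : (cfL ℝ (wb D.ρ) (m, n)).comp (io D.ρ) =
      (if m = 0 ∧ 0 ≤ n then (1 : ℝ) else 0) • cfL ℝ (wk D.ρ) n :=
    clm_ext fun j => by
      rw [ContinuousLinearMap.comp_apply, _root_.smul_apply, cfL_apply, cfL_apply, cf_mono]
      by_cases hj : 0 ≤ j
      · rw [io_mono D.ρ hj, cf_mono]
        by_cases h1 : m = 0 ∧ n = j
        · obtain ⟨rfl, rfl⟩ := h1
          simp [hj]
        · have h2 : ¬ ((m, n) = ((0 : ℤ), j)) := by simpa using h1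
          rw [if_neg h2]
          by_cases h3 : n = j
          · have : m ≠ 0 := fun h => h1 ⟨h, h3⟩
            simp [this]
          · simp [h3]
      · rw [io_mono_neg D.ρ hj, cf_zero]
        by_cases h3 : n = j
        · subst h3; simp [hj]
        · simp [h3]
  have := congrArg (fun L => L k) h
  simp only [ContinuousLinearMap.comp_apply, cfL_apply, _root_.smul_apply, smul_eq_mul] at this
  rw [this]
  split_ifs <;> simp

theorem cf_Tv (x : Ab D.ρ) (m n : ℤ) :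
    cf (Tv D.ρ x) (m, n) = if 0 ≤ m ∧ 1 ≤ n then (1 / (n : ℝ)) * cf x (m, n - 1) else 0 := by
  classical
  have h : (cfL ℝ (wa D.ρ) (m, n)).comp (Tv D.ρ) =
      (if 0 ≤ m ∧ 1 ≤ n then 1 / (n : ℝ) else 0) • cfL ℝ (wb D.ρ) (m, n - 1) :=
    clm_ext fun g => by
      obtain ⟨a, b⟩ := g
      rw [ContinuousLinearMap.comp_apply, _root_.smul_apply, cfL_apply, cfL_apply, cf_mono]
      by_cases hq : 0 ≤ a ∧ 0 ≤ b
      · rw [Tv_mono D.ρ hq.1 hq.2, cf_smul, cf_mono]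
        by_cases h1 : m = a ∧ n = b + 1
        · obtain ⟨rfl, rfl⟩ := h1
          rw [if_pos rfl, if_pos (⟨hq.1, by omega⟩), if_pos (by simp)]
          push_cast
          simp
        · have h2 : ¬ ((m, n) = (a, b + 1)) := by simpa using h1
          have h3 : ¬ ((m, n - 1) = (a, b)) := by
            intro h
            rw [Prod.mk.injEq] at h
            exact h1 ⟨h.1, by omega⟩
          rw [if_neg h2, if_neg h3, mul_zero, smul_zero]
      · rw [Tv_mono_not D.ρ (fun h => hq h), cf_zero]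
        by_cases h3 : (m, n - 1) = (a, b)
        · rw [Prod.mk.injEq] at h3
          have h4 : ¬ (0 ≤ m ∧ 1 ≤ n) := fun h => hq ⟨by omega, by omega⟩
          rw [if_neg h4, zero_smul]
        · rw [if_neg h3, smul_zero]
  have := congrArg (fun L => L x) h
  simp only [ContinuousLinearMap.comp_apply, cfL_apply, _root_.smul_apply, smul_eq_mul] at this
  rw [this]
  split_ifs <;> simp

theorem cf_iv (a : As D.ρ) (m n : ℤ) : cf (iv D.ρ a) (m, n) = if m = 0 then cf a n else 0 := by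
  classical
  have h : (cfL ℝ (wa D.ρ) (m, n)).comp (iv D.ρ) =
      (if m = 0 then (1 : ℝ) else 0) • cfL ℝ (ws D.ρ) n :=
    clm_ext fun j => by
      rw [ContinuousLinearMap.comp_apply, _root_.smul_apply, cfL_apply, cfL_apply, cf_mono,
        iv_mono, cf_mono]
      by_cases h1 : m = 0 <;> by_cases h2 : n = j <;> simp [h1, h2]
  have := congrArg (fun L => L a) h
  simp only [ContinuousLinearMap.comp_apply, cfL_apply, _root_.smul_apply, smul_eq_mul] at this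
  rw [this]
  split_ifs <;> simp

/-- `H = (1/t + b t) G₀ + b t²`. -/
def HH : As D.ρ := (ts D.ρ (-1) + D.b • ts D.ρ 1) * G0 D + D.b • ts D.ρ 2

theorem cf_HH (n : ℤ) : cf (HH D) n =
    cf (G0 D) (n + 1) + D.b * cf (G0 D) (n - 1) + if n = 2 then D.b else 0 := by
  classical
  unfold HH
  rw [cf_add, add_mul, cf_add, smul_mul_assoc, cf_smul, cf_mono_mul, cf_mono_mul, cf_smul, cf_mono,
    sub_neg_eq_add]
  by_cases h : n = 2 <;> simp [h]

theorem G0_rec (n : ℤ) : cf (G0 D) n = D.b * cf (G0 D) (n - 2) + if n = 3 then 2 * D.b else 0 := by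
  classical
  have h1 : (1 - D.b • ts D.ρ 2) * G0 D = (2 * D.b) • ts D.ρ 3 := by
    unfold G0
    calc (1 - D.b • ts D.ρ 2) * (2 * D.b) • (ts D.ρ 3 * geo D)
        = (2 * D.b) • (ts D.ρ 3 * ((1 - D.b • ts D.ρ 2) * geo D)) := by
          rw [mul_smul_comm]; congr 1; ring
      _ = _ := by rw [geo_mul, mul_one]
  have h2 := congrArg (fun a => cf a n) h1
  simp only [sub_mul, one_mul, smul_mul_assoc, cf_sub, cf_smul, cf_mono_mul, cf_mono] at h2
  by_cases h : n = 3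
  · rw [if_pos h] at h2 ⊢; linarith
  · rw [if_neg h] at h2 ⊢; linarith

theorem suppIn_HH : SuppIn {n : ℤ | 0 ≤ n} (HH D) := by
  intro n hn
  have hn0 : ¬ (0 ≤ n) := hn
  have h1 : cf (G0 D) (n + 1) = 0 := suppIn_G0 D _ (by simp; omega)
  have h2 : cf (G0 D) (n - 1) = 0 := suppIn_G0 D _ (by simp; omega)
  rw [cf_HH, h1, h2, if_neg (by omega)]; ring

/-- `∫ k₀(v) v (1 + b v²) dv = H(v)`. -/
theorem TT_H : TT D (k0 D) (ma D.ρ 0 1 + D.b • ma D.ρ 0 3) = iv D.ρ (HH D) := by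
  classical
  ext ⟨m, n⟩
  rw [TT_apply, cf_Tv, cf_iv, cf_HH, map_add, map_smul, rab_mono, rab_mono,
    mul_comm (io D.ρ (k0 D)), add_mul, cf_add, smul_mul_assoc, cf_smul, cf_mono_mul, cf_mono_mul, Prod.mk_sub_mk, Prod.mk_sub_mk,
    cf_io, cf_io]
  unfold k0
  rw [cf_dk, cf_dk]
  by_cases hm : m = 0
  · subst hm
    by_cases hn : 1 ≤ n
    · have hr := G0_rec D (n + 1)
      have e1 : n + 1 - 2 = n - 1 := by ring
      rw [e1] at hr
      have hn0 : (n : ℝ) ≠ 0 := by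
        have : n ≠ 0 := by omega
        exact_mod_cast this
      rw [if_pos ⟨le_refl _, hn⟩, if_pos rfl]
      have a1 : (if (0 : ℤ) - 0 = 0 ∧ 0 ≤ n - 1 - 1 then
          (((n - 1 - 1 : ℤ) : ℝ) + 3) * cf (G0 D) (n - 1 - 1 + 3) else 0) =
          ((n : ℝ) + 1) * cf (G0 D) (n + 1) := by
        by_cases h : 0 ≤ n - 1 - 1
        · rw [if_pos ⟨by ring, h⟩]
          have e : n - 1 - 1 + 3 = n + 1 := by ring
          rw [e]; push_cast; ring
        · have : cf (G0 D) (n + 1) = 0 := suppIn_G0 D _ (by simp; omega)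
          rw [if_neg (fun h' => h h'.2), this, mul_zero]
      have a2 : (if (0 : ℤ) - 0 = 0 ∧ 0 ≤ n - 1 - 3 then
          (((n - 1 - 3 : ℤ) : ℝ) + 3) * cf (G0 D) (n - 1 - 3 + 3) else 0) =
          ((n : ℝ) - 1) * cf (G0 D) (n - 1) := by
        by_cases h : 0 ≤ n - 1 - 3
        · rw [if_pos ⟨by ring, h⟩]
          have e : n - 1 - 3 + 3 = n - 1 := by ring
          rw [e]; push_cast; ring
        · have : cf (G0 D) (n - 1) = 0 := suppIn_G0 D _ (by simp; omega)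
          rw [if_neg (fun h' => h h'.2), this, mul_zero]
      rw [a1, a2]
      by_cases h2 : n = 2
      · subst h2
        rw [if_pos (by ring)] at hr
        rw [if_pos rfl]
        norm_num at hr ⊢
        rw [hr]
        ring
      · rw [if_neg (by omega), add_zero] at hr
        rw [if_neg h2, add_zero, hr]
        field_simp
        ring
    · have h1 : cf (G0 D) (n + 1) = 0 := suppIn_G0 D _ (by simp; omega)
      have h2 : cf (G0 D) (n - 1) = 0 := suppIn_G0 D _ (by simp; omega)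
      rw [if_neg (fun h => hn h.2), if_pos rfl, h1, h2, if_neg (by omega)]; ring
  · simp [hm]

/-! ## The base values -/

theorem iw_mul_HH : ma D.ρ 1 0 * iw D.ρ (HH D) =
    (1 + D.b • ma D.ρ 2 0) * iw D.ρ (G0 D) + D.b • ma D.ρ 3 0 := by
  have h1 : ts D.ρ 1 * HH D = (1 + D.b • ts D.ρ 2) * G0 D + D.b • ts D.ρ 3 := by
    unfold HH
    have e1 : ts D.ρ 1 * ts D.ρ (-1) = 1 := by rw [ts_mul]; norm_num
    have e2 : ts D.ρ 1 * ts D.ρ 1 = ts D.ρ 2 := by rw [ts_mul]; norm_num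
    have e3 : ts D.ρ 1 * ts D.ρ 2 = ts D.ρ 3 := by rw [ts_mul]; norm_num
    rw [mul_add, ← mul_assoc, mul_add, e1, mul_smul_comm, e2, mul_smul_comm, e3]
  have h2 := congrArg (iw D.ρ) h1
  rw [iw_mul, iw_mono, map_add, iw_mul, map_add, iw_one, map_smul, iw_mono, map_smul,
    iw_mono] at h2
  exact h2

theorem iv_mul_HH : ma D.ρ 0 1 * iv D.ρ (HH D) =
    (1 + D.b • ma D.ρ 0 2) * iv D.ρ (G0 D) + D.b • ma D.ρ 0 3 := by
  have h1 : ts D.ρ 1 * HH D = (1 + D.b • ts D.ρ 2) * G0 D + D.b • ts D.ρ 3 := by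
    unfold HH
    have e1 : ts D.ρ 1 * ts D.ρ (-1) = 1 := by rw [ts_mul]; norm_num
    have e2 : ts D.ρ 1 * ts D.ρ 1 = ts D.ρ 2 := by rw [ts_mul]; norm_num
    have e3 : ts D.ρ 1 * ts D.ρ 2 = ts D.ρ 3 := by rw [ts_mul]; norm_num
    rw [mul_add, ← mul_assoc, mul_add, e1, mul_smul_comm, e2, mul_smul_comm, e3]
  have h2 := congrArg (iv D.ρ) h1
  rw [iv_mul, iv_mono, map_add, iv_mul, map_add, iv_one, map_smul, iv_mono, map_smul,
    iv_mono] at h2
  exact h2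

theorem sig_iw (a : As D.ρ) : sig D.ρ (iw D.ρ a) = iv D.ρ a := by
  rw [← sig_iv, sig_sig]

theorem suppIn_G0' : SuppIn {n : ℤ | 0 ≤ n} (G0 D) :=
  (suppIn_G0 D).mono_set fun n hn => by
    have : (3 : ℤ) ≤ n := hn
    show (0 : ℤ) ≤ n
    omega

theorem TT_G0 : TT D (k0 D) (ma D.ρ 0 2) = iv D.ρ (G0 D) := TT_dk2 D (suppIn_G0 D)

theorem TT_full : TT D (k0 D) (ma D.ρ 0 1 + D.b • ma D.ρ 0 3 + ma D.ρ 0 2 * iw D.ρ (G0 D)) =
    iv D.ρ (HH D) + iv D.ρ (G0 D) * iw D.ρ (G0 D) := by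
  rw [TT_add, TT_H, TT_iw D (k0 D) (suppIn_mono ⟨le_refl _, by norm_num⟩) (suppIn_G0' D), TT_G0]

theorem sig_p10 : sig D.ρ (p10 D) = ma D.ρ 0 1 := sig_mono _ _ _

theorem sig_p20 : sig D.ρ (p20 D) = 1 + D.b • ma D.ρ 0 2 + ma D.ρ 0 1 * iw D.ρ (G0 D) := by
  unfold p20
  rw [map_add, map_add, sig_one, map_smul, sig_mono, sig_mul, sig_mono, sig_iv]

theorem q1q2 : sig D.ρ (p10 D) * sig D.ρ (p20 D) =
    ma D.ρ 0 1 + D.b • ma D.ρ 0 3 + ma D.ρ 0 2 * iw D.ρ (G0 D) := by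
  rw [sig_p10, sig_p20, mul_add, mul_add, mul_one, mul_smul_comm, ma_mul, ← mul_assoc, ma_mul]
  norm_num

theorem sig_p1p2 : sig D.ρ (p10 D * p20 D) =
    ma D.ρ 0 1 + D.b • ma D.ρ 0 3 + ma D.ρ 0 2 * iw D.ρ (G0 D) := by
  rw [sig_mul, q1q2]

theorem e0w_q : e0w D (ma D.ρ 0 1 + D.b • ma D.ρ 0 3 + ma D.ρ 0 2 * iw D.ρ (G0 D)) =
    ma D.ρ 0 1 + D.b • ma D.ρ 0 3 := by
  classical
  unfold e0w
  rw [map_add, map_add, map_smul, proj_eq_self_iff.2 (suppIn_mono (by simp)),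
    proj_eq_self_iff.2 (suppIn_mono (by simp))]
  have h : proj ℝ (wa D.ρ) {g : ℤ × ℤ | g.1 = 0} (ma D.ρ 0 2 * iw D.ρ (G0 D)) = 0 := by
    ext ⟨m, n⟩
    rw [cf_proj, cf_zero]
    split_ifs with hm
    · have hm0 : m = 0 := hm
      subst hm0
      have hs : SuppIn {g : ℤ × ℤ | 3 ≤ g.1} (iw D.ρ (G0 D)) := by
        have h1 : (iw D.ρ).comp (proj ℝ (ws D.ρ) {n : ℤ | 3 ≤ n}) =
            (proj ℝ (wa D.ρ) {g : ℤ × ℤ | 3 ≤ g.1}).comp
              ((iw D.ρ).comp (proj ℝ (ws D.ρ) {n : ℤ | 3 ≤ n})) := clm_ext fun j => by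
          rw [ContinuousLinearMap.comp_apply, ContinuousLinearMap.comp_apply,
            ContinuousLinearMap.comp_apply]
          by_cases hj : j ∈ {n : ℤ | 3 ≤ n}
          · rw [proj_eq_self_iff.2 (suppIn_mono hj), iw_mono,
              proj_eq_self_iff.2 (suppIn_mono (show (j, (0 : ℤ)) ∈ {g : ℤ × ℤ | 3 ≤ g.1} from hj))]
          · have : proj ℝ (ws D.ρ) {n : ℤ | 3 ≤ n} (mono ℝ (ws D.ρ) j) = 0 := by
              ext i
              rw [cf_proj, cf_mono]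
              by_cases hi : i ∈ {n : ℤ | 3 ≤ n}
              · rw [if_pos hi, if_neg (fun e : i = j => hj (e ▸ hi)), cf_zero]
              · rw [if_neg hi, cf_zero]
            rw [this, map_zero, map_zero]
        have h2 := congrArg (fun L => L (G0 D)) h1
        simp only [ContinuousLinearMap.comp_apply, proj_eq_self_iff.2 (suppIn_G0 D)] at h2
        rw [h2]
        exact suppIn_proj _ _
      rw [cf_mono_mul]
      exact hs _ (by simp)
    · rfl
  rw [h, add_zero]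

theorem ZZ_base : ZZ D 0 (k0 D) (p10 D) (p20 D) = iw D.ρ (G0 D) := by
  unfold ZZ TW
  have h1 : sig D.ρ (p10 D * p10 D) = ma D.ρ 0 2 := by
    rw [sig_mul, sig_p10, ma_mul]; norm_num
  rw [h1, TT_G0, sig_iv, zero_smul, sub_zero]

theorem YY_base : YY D (k0 D) (p10 D) (p20 D) =
    iw D.ρ (HH D) + iv D.ρ (HH D) + iv D.ρ (G0 D) * iw D.ρ (G0 D) := by
  unfold YY TW
  rw [sig_p1p2, TT_full, q1q2, e0w_q, TT_H, map_add, sig_mul, sig_iv, sig_iv, sig_iw]
  ring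

/-- `be = v (1 + b w²)` at the base point. -/
theorem BE_base : BE D (x0 D) = ma D.ρ 0 1 + D.b • ma D.ρ 2 1 := by
  unfold BE
  rw [SG_base]
  change sig D.ρ (p10 D) * p20 D - ma D.ρ 1 1 * sig D.ρ (ZZ D 0 (k0 D) (p10 D) (p20 D)) = _
  rw [ZZ_base, sig_iw, sig_p10]
  unfold p20
  rw [mul_add, mul_add, mul_one, mul_smul_comm, ma_mul, ← mul_assoc, ma_mul]
  norm_num

/-- `ga = (1 + b w²)(1 + b v²) - b (w³ v + w v³)` at the base point. -/
theorem GA_base : GA D (x0 D) = (1 + D.b • ma D.ρ 2 0) * (1 + D.b • ma D.ρ 0 2) -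
    D.b • (ma D.ρ 3 1 + ma D.ρ 1 3) := by
  unfold GA
  rw [SG_base]
  change p20 D * sig D.ρ (p20 D) - ma D.ρ 1 1 * YY D (k0 D) (p10 D) (p20 D) = _
  rw [YY_base, sig_p20]
  unfold p20
  have h1 := iw_mul_HH D
  have h2 := iv_mul_HH D
  have e1 : ma D.ρ 1 1 = ma D.ρ 1 0 * ma D.ρ 0 1 := by rw [ma_mul]; norm_num
  have e2 : ma D.ρ 3 1 = ma D.ρ 3 0 * ma D.ρ 0 1 := by rw [ma_mul]; norm_num
  have e3 : ma D.ρ 1 3 = ma D.ρ 1 0 * ma D.ρ 0 3 := by rw [ma_mul]; norm_num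
  rw [e1, e2, e3]
  have e4 : ma D.ρ 1 0 * ma D.ρ 0 1 * (iw D.ρ (HH D) + iv D.ρ (HH D) +
      iv D.ρ (G0 D) * iw D.ρ (G0 D)) = ma D.ρ 0 1 * (ma D.ρ 1 0 * iw D.ρ (HH D)) +
      ma D.ρ 1 0 * (ma D.ρ 0 1 * iv D.ρ (HH D)) +
      ma D.ρ 1 0 * ma D.ρ 0 1 * (iv D.ρ (G0 D) * iw D.ρ (G0 D)) := by ring
  rw [e4, h1, h2]
  simp only [Algebra.smul_def]
  ring

end Base79
end CMC
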