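import Pool.Agent.Lib.MP_479d4c_gt.S.Iface

/-!
# EVC: real analyticity and smoothness on the real slice

`x ↦ ∑ f_{mn} x^m conj(x)^n` is given on the disc of radius `6/5` by the real power series with
terms `h ↦ ∑_{m+n=N} f_{mn} h_1 ⋯ h_m conj h_{m+1} ⋯ conj h_N`.
-/

set_option autoImplicit false

open ComplexConjugate Topology Metric
open scoped ContDiff ENNReal NNReal

noncomputable section

namespace CMC82.H79

open CMC82

/-- The multilinear map `h ↦ h_1 ⋯ h_i conj h_{i+1} ⋯ conj h_n`. -/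
def mon (n i : ℕ) : ContinuousMultilinearMap ℝ (fun _ : Fin n => ℂ) ℂ :=
  (ContinuousMultilinearMap.mkPiAlgebraFin ℝ n ℂ).compContinuousLinearMap
    (fun a => if (a : ℕ) < i then ContinuousLinearMap.id ℝ ℂ else (Complex.conjCLE : ℂ →L[ℝ] ℂ))

theorem norm_mon_le (n i : ℕ) : ‖mon n i‖ ≤ 1 := by
  apply ContinuousMultilinearMap.opNorm_le_bound zero_le_one
  intro h
  rw [mon, ContinuousMultilinearMap.compContinuousLinearMap_apply,
    ContinuousMultilinearMap.mkPiAlgebraFin_apply, one_mul, List.prod_ofFn, norm_prod]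
  apply le_of_eq
  refine Finset.prod_congr rfl fun a _ => ?_
  split_ifs
  · rfl
  · simp

theorem mon_diag (n i : ℕ) (hi : i ≤ n) (x : ℂ) :
    mon n i (fun _ => x) = x ^ i * (conj x) ^ (n - i) := by
  rw [mon, ContinuousMultilinearMap.compContinuousLinearMap_apply,
    ContinuousMultilinearMap.mkPiAlgebraFin_apply, List.prod_ofFn]
  have h1 : ∀ a : Fin n, ((if (a : ℕ) < i then ContinuousLinearMap.id ℝ ℂ
      else (Complex.conjCLE : ℂ →L[ℝ] ℂ)) : ℂ →L[ℝ] ℂ) x = if (a : ℕ) < i then x else conj x := by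
    intro a
    split_ifs
    · rfl
    · simp
  simp only [h1]
  rw [Fin.prod_univ_eq_prod_range (fun a => if a < i then x else conj x) n]
  obtain ⟨j, rfl⟩ := Nat.exists_eq_add_of_le hi
  rw [Finset.prod_range_add, Nat.add_sub_cancel_left]
  congr 1
  · rw [Finset.prod_congr rfl (fun a ha => if_pos (Finset.mem_range.mp ha)), Finset.prod_const,
      Finset.card_range]
  · rw [Finset.prod_congr rfl (fun a _ => if_neg (by omega)), Finset.prod_const,
      Finset.card_range]

/-- The power series of `x ↦ ev2 f x (conj x)`. -/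
def ser (f : Arr) : FormalMultilinearSeries ℝ ℂ ℂ := fun n =>
  ∑ p ∈ Finset.HasAntidiagonal.antidiagonal n, f p • mon n p.1

theorem ser_diag (f : Arr) (n : ℕ) (x : ℂ) : ser f n (fun _ => x) =
    ∑ p ∈ Finset.HasAntidiagonal.antidiagonal n, (f p : ℂ) * x ^ p.1 * (conj x) ^ p.2 := by
  rw [ser, _root_.sum_apply]
  refine Finset.sum_congr rfl fun p hp => ?_
  rw [Finset.HasAntidiagonal.mem_antidiagonal] at hp
  rw [_root_.smul_apply, mon_diag n p.1 (by omega), Complex.real_smul, mul_assoc]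
  congr 3
  omega

theorem norm_ser_le (f : Arr) (n : ℕ) :
    ‖ser f n‖ ≤ ∑ p ∈ Finset.HasAntidiagonal.antidiagonal n, |f p| := by
  refine (norm_sum_le _ _).trans (Finset.sum_le_sum fun p _ => ?_)
  rw [norm_smul, Real.norm_eq_abs]
  calc |f p| * ‖mon n p.1‖ ≤ |f p| * 1 := mul_le_mul_of_nonneg_left (norm_mon_le _ _) (abs_nonneg _)
    _ = |f p| := mul_one _

theorem summable_ser (f : Arr) (r : ℝ) (hr : 0 ≤ r)
    (h : Summable fun i : ℕ × ℕ => r ^ (i.1 + i.2) * |f i|) :
    Summable fun n => ‖ser f n‖ * r ^ n := by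
  have h1 := (Finset.HasAntidiagonal.sigmaAntidiagonalEquivProd.summable_iff (f := fun i : ℕ × ℕ =>
    r ^ (i.1 + i.2) * |f i|)).mpr h
  have h2 := (summable_sigma_of_nonneg (fun x => by
    simp only [Function.comp_apply]; positivity)).mp h1
  refine Summable.of_nonneg_of_le (fun n => by positivity) (fun n => ?_) h2.2
  rw [tsum_fintype]
  simp only [Function.comp_apply, Finset.HasAntidiagonal.sigmaAntidiagonalEquivProd_apply]
  rw [Finset.sum_coe_sort (Finset.HasAntidiagonal.antidiagonal n)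
    (fun i : ℕ × ℕ => r ^ (i.1 + i.2) * |f i|)]
  calc ‖ser f n‖ * r ^ n ≤ (∑ p ∈ Finset.HasAntidiagonal.antidiagonal n, |f p|) * r ^ n :=
        mul_le_mul_of_nonneg_right (norm_ser_le f n) (by positivity)
    _ = _ := by
        rw [Finset.sum_mul]
        refine Finset.sum_congr rfl fun p hp => ?_
        rw [Finset.HasAntidiagonal.mem_antidiagonal] at hp
        rw [hp, mul_comm]

theorem hasSum_ser (f : Arr) (x : ℂ)
    (h : Summable fun i : ℕ × ℕ => ‖x‖ ^ (i.1 + i.2) * |f i|) :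
    HasSum (fun n => ser f n (fun _ => x)) (ev2 f x (conj x)) := by
  have h0 : Summable fun i : ℕ × ℕ => (f i : ℂ) * x ^ i.1 * (conj x) ^ i.2 := by
    apply Summable.of_norm
    refine h.congr fun i => ?_
    rw [norm_mul, norm_mul, norm_pow, norm_pow, RCLike.norm_conj, Complex.norm_real,
      Real.norm_eq_abs, pow_add]
    ring
  have h1 := h0.hasSum
  have h2 := (Finset.HasAntidiagonal.sigmaAntidiagonalEquivProd.hasSum_iff (f := fun i : ℕ × ℕ =>
    (f i : ℂ) * x ^ i.1 * (conj x) ^ i.2)).mpr h1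
  have h3 : HasSum (fun n => ∑ p ∈ Finset.HasAntidiagonal.antidiagonal n,
      (f p : ℂ) * x ^ p.1 * (conj x) ^ p.2) (ev2 f x (conj x)) := by
    refine h2.sigma (fun n => ?_)
    have h4 := hasSum_fintype (fun c : Finset.HasAntidiagonal.antidiagonal n =>
      (f (c : ℕ × ℕ) : ℂ) * x ^ (c : ℕ × ℕ).1 * (conj x) ^ (c : ℕ × ℕ).2)
    rw [Finset.sum_coe_sort (Finset.HasAntidiagonal.antidiagonal n)
      (fun p : ℕ × ℕ => (f p : ℂ) * x ^ p.1 * (conj x) ^ p.2)] at h4
    exact h4
  simpa only [ser_diag] using h3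

theorem hasFPowerSeriesOnBall (f : Arr) (hf : Cv f) :
    HasFPowerSeriesOnBall (fun x => ev2 f x (conj x)) (ser f) 0 (ENNReal.ofReal (6 / 5)) := by
  refine ⟨?_, by simp, ?_⟩
  · apply ENNReal.le_of_forall_nnreal_lt
    intro r hr
    have hr2 : (r : ℝ) < 6 / 5 := by
      rw [ENNReal.lt_ofReal_iff_toReal_lt (by simp)] at hr
      simpa using hr
    exact FormalMultilinearSeries.le_radius_of_summable_norm _
      (summable_ser f r r.2 (hf r r.2 hr2))
  · intro y hy
    rw [zero_add]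
    have hy2 : ‖y‖ < 6 / 5 := by
      rw [Metric.eball_ofReal, mem_ball_zero_iff] at hy
      exact hy
    exact hasSum_ser f y (hf _ (norm_nonneg _) hy2)

/-- Real analyticity on the disc of radius `6/5`. -/
theorem evc_an (f : Arr) (hf : Cv f) :
    AnalyticOnNhd ℝ (fun x => ev2 f x (conj x)) (ball 0 (6 / 5)) := by
  have h := (hasFPowerSeriesOnBall f hf).analyticOnNhd
  rwa [Metric.eball_ofReal] at h

theorem evc_st : EvcS := fun f hf => (evc_an f hf).contDiffOn (isOpen_ball.uniqueDiffOn)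

end CMC82.H79
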